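import Pool.Agent.Y489.GE.Fin2
import Pool.Agent.Y467.GE.MG
import Pool.Agent.Y467.GE.CP
import Pool.Agent.Y467.GE.STEP
import Pool.Agent.Y812.GE.EN
import Pool.Agent.Y812.GE.REC
import Pool.Agent.Y812.GE.TR
import Pool.Agent.Y165.GE.CG
import Pool.Agent.Y590.GE.BK
import Pool.Agent.Y911.GE.LIFT
import Pool.Agent.Y911.GE.SET
import Pool.Agent.Y50.GE.Om
import Pool.Agent.Y26.GE.KUHN

/-!
# Lipschitz retracts: the contraction of loops

`A` is a Lipschitz retract of `X` and a group acts transitively on `A` by Lipschitz maps. If `X` has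
no short closed geodesic, then the short loops of `A` are contracted.
-/

set_option autoImplicit false

open Set Topology

namespace Pool.Agent.Q144.LR

open Pool.Agent.Y489.GE

/-- `ι : A → X` is `a`-Lipschitz, `ρ : X → A` is `b`-Lipschitz and `ρ ∘ ι` is the identity. -/
structure Retr {A X : Type} [MetricSpace A] [MetricSpace X] (a b : ℝ) (ι : A → X) (ρ : X → A) :
    Prop where
  inc : ∀ x y : A, dist (ι x) (ι y) ≤ a * dist x y
  ret : ∀ x y : X, dist (ρ x) (ρ y) ≤ b * dist x y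
  id : ∀ x : A, ρ (ι x) = x

theorem cont_of {A X : Type} [MetricSpace A] [MetricSpace X] {a : ℝ} (ha : 0 ≤ a) {f : A → X}
    (h : ∀ x y : A, dist (f x) (f y) ≤ a * dist x y) : Continuous f :=
  (LipschitzWith.of_dist_le_mul (K := ⟨a, ha⟩) h).continuous

/-- the polygons with sides at most `δ` are contracted to constant polygons, within the polygons
with sides at most `δ'` -/
def PolC2 (X : Type) [MetricSpace X] (N : ℕ) (δ δ' : ℝ) : Prop :=
  ∃ c : ↥(Pol X N δ) → X, Htp (Y := ↥(Pol X N δ)) (W := ZMod N → X) (Pol X N δ')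
    {x | ∀ i, x.1 i = x.1 0} (fun x => x.1) (fun x _ => c x)

theorem push {A X : Type} [MetricSpace A] [MetricSpace X] {a b : ℝ} {ι : A → X} {ρ : X → A}
    (h : Retr a b ι ρ) (ha : 0 ≤ a) (hb : 0 ≤ b) {N : ℕ} {δ : ℝ} (hP : PolC X N (a * δ)) :
    PolC2 A N δ (b * (a * δ)) := by
  obtain ⟨c, H, hH, hHT, hH0', hH1', hHZ'⟩ := hP
  have hH0 : ∀ (y : ↥(Pol X N (a * δ))) (s : ℝ), s ≤ 0 → H y s = y.1 := hH0'
  have hH1 : ∀ (y : ↥(Pol X N (a * δ))) (s : ℝ), 1 ≤ s → H y s = fun _ => c y := hH1'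
  have hHZ : ∀ y : ↥(Pol X N (a * δ)), (∀ i, y.1 i = y.1 0) → ∀ s, H y s = y.1 := hHZ'
  have hιc := cont_of ha h.inc
  have hρc := cont_of hb h.ret
  obtain ⟨u, hu⟩ : ∃ u : ↥(Pol A N δ) → ↥(Pol X N (a * δ)), ∀ x, (u x).1 = fun i => ι (x.1 i) :=
    ⟨fun x => ⟨fun i => ι (x.1 i), fun i =>
      (h.inc _ _).trans (mul_le_mul_of_nonneg_left (x.2 i) ha)⟩, fun _ => rfl⟩
  have hucont : Continuous u := by
    rw [continuous_induced_rng]
    have : (Subtype.val ∘ u) = fun x : ↥(Pol A N δ) => fun i => ι (x.1 i) := funext fun x => hu x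
    rw [this]
    exact continuous_pi fun i => hιc.comp ((continuous_apply i).comp continuous_subtype_val)
  refine ⟨fun x => ρ (c (u x)), fun x s i => ρ (H (u x) s i), ?_, ?_, ?_, ?_, ?_⟩
  · refine continuous_pi fun i => hρc.comp ((continuous_apply i).comp ?_)
    exact hH.comp ((hucont.comp continuous_fst).prodMk continuous_snd)
  · intro x s i
    exact (h.ret _ _).trans (mul_le_mul_of_nonneg_left (hHT (u x) s i) hb)
  · intro x s hs
    funext i
    dsimp only
    rw [hH0 _ _ hs, hu]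
    exact h.id _
  · intro x s hs
    funext i
    dsimp only
    rw [hH1 _ _ hs]
  · intro x hx s
    funext i
    dsimp only
    rw [hHZ (u x) (fun j => by rw [hu]; dsimp only; rw [hx j]) s, hu]
    exact h.id _

/-- transport of the contraction to the first vertex `p` -/
theorem tr2 {X G : Type} [MetricSpace X] [CompactSpace X] [Group G] [TopologicalSpace G]
    [IsTopologicalGroup G] [MulAction G X] [ContinuousSMul G X] {p : X} {lam : ℝ}
    (hlip : ∀ (g : G) (x y : X), dist (g • x) (g • y) ≤ lam * dist x y) (hsec : LocSec X G p)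
    (hlam : 0 ≤ lam) {N : ℕ} [NeZero N] {δ δ' : ℝ} (hPol : PolC2 X N δ δ') :
    PolpC X N δ (lam * δ') p := by
  obtain ⟨c, H, hH, hHT, hH0', hH1', hHZ'⟩ := hPol
  have hH0 : ∀ (y : ↥(Pol X N δ)) (s : ℝ), s ≤ 0 → H y s = y.1 := hH0'
  have hH1 : ∀ (y : ↥(Pol X N δ)) (s : ℝ), 1 ≤ s → H y s = fun _ => c y := hH1'
  have hHZ : ∀ y : ↥(Pol X N δ), (∀ i, y.1 i = y.1 0) → ∀ s, H y s = y.1 := hHZ'
  have hcomp : CompactSpace ↥(Polp X N δ p) :=
    isCompact_iff_compactSpace.1 (Pool.Agent.Y812.GE.isClosed_Polp X N δ p).isCompact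
  obtain ⟨u, hu⟩ : ∃ u : ↥(Polp X N δ p) → ↥(Pol X N δ), ∀ x, u x = ⟨x.1, x.2.1⟩ :=
    ⟨_, fun _ => rfl⟩
  have hu1 : ∀ x, (u x).1 = x.1 := fun x => by rw [hu]
  have hucont : Continuous u := by
    rw [continuous_induced_rng]
    have : (Subtype.val ∘ u) = Subtype.val := funext fun x => hu1 x
    rw [this]
    exact continuous_subtype_val
  have hHu : Continuous (fun z : ↥(Polp X N δ p) × ℝ => H (u z.1) z.2) :=
    hH.comp ((hucont.comp continuous_fst).prodMk continuous_snd)
  obtain ⟨g, hg, hg0, hg1, hgp, hgZ⟩ := Pool.Agent.Y911.GE.t_LIFT X G p lam hlip hsec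
    ↥(Polp X N δ p) (fun x s => H (u x) s 0) ((continuous_apply (0 : ZMod N)).comp hHu)
    (fun x s hs => by
      rw [hH0 _ _ hs, hu1]
      exact x.2.2)
    (fun x s hs => by
      rw [hH1 _ _ hs, hH1 _ _ le_rfl])
  refine ⟨fun x s i => (g x s)⁻¹ • H (u x) s i, ?_, ?_, ?_, ?_, ?_⟩
  · refine continuous_pi fun i => ?_
    exact hg.inv.smul ((continuous_apply i).comp hHu)
  · intro x s
    constructor
    · intro i
      refine (hlip _ _ _).trans ?_
      exact mul_le_mul_of_nonneg_left (hHT (u x) s i) hlam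
    · change (g x s)⁻¹ • H (u x) s 0 = p
      rw [← hgp x s, inv_smul_smul]
  · intro x s hs
    funext i
    dsimp only
    rw [hg0 x s hs, inv_one, one_smul, hH0 _ _ hs, hu1]
  · intro x s hs
    funext i
    dsimp only
    have h1 := hgp x s
    rw [hH1 _ _ hs] at h1 ⊢
    rw [← h1, inv_smul_smul]
  · intro x hx s
    have h1 : ∀ s, H (u x) s = x.1 := by
      intro s
      rw [← hu1 x]
      refine hHZ (u x) ?_ s
      intro i
      rw [hu1]
      rw [hx i, hx 0]
    have h2 : g x s = 1 := hgZ x (fun s => by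
      rw [h1 s]
      exact hx 0) s
    funext i
    dsimp only
    rw [h2, inv_one, one_smul, h1 s]

/-- no closed geodesics of length at most `L` in `X`: contraction of the loops of length `t`,
`a t ≤ L`, of the retract `A` -/
theorem omC_retract {X A G : Type} [MetricSpace X] [CompactSpace X] [MetricSpace A]
    [CompactSpace A] [Group G] [TopologicalSpace G] [IsTopologicalGroup G] [MulAction G A]
    [ContinuousSMul G A] {a b : ℝ} {ι : A → X} {ρ : X → A} (hret : Retr a b ι ρ) (ha : 0 < a)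
    (hb : 0 ≤ b) (hab : 1 ≤ a * b) {rX : ℝ} {mX : X → X → ℝ → X} (hmX : GMap X rX mX)
    (hrX : 0 < rX) {rA : ℝ} {mA : A → A → ℝ → A} (hmA : GMap A rA mA) (hrA : 0 < rA) {p : A}
    {lam : ℝ} (hlam : 1 ≤ lam)
    (hG : ∀ (g : G) (x y : A), dist (g • x) (g • y) ≤ lam * dist x y) (hs : LocSec A G p)
    {L : ℝ} (hno : ¬ ClosedGeod X L) {t : ℝ} (ht : 0 < t) (htL : a * t ≤ L) :
    OmC p t (lam * (a * b) * t) := by
  have hl0 : 0 < lam := by linarith
  have hlab : 1 ≤ lam * (a * b) := by nlinarith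
  obtain ⟨N, hN⟩ := exists_nat_gt (max (lam * (a * b) * t / rA) (a * t / rX))
  have hNA : lam * (a * b) * t / rA < N := lt_of_le_of_lt (le_max_left _ _) hN
  have hNX : a * t / rX < N := lt_of_le_of_lt (le_max_right _ _) hN
  have hN0 : (0 : ℝ) < N := lt_trans (by positivity) hNX
  have hN' : N ≠ 0 := by
    rintro rfl
    simp at hN0
  have : NeZero N := ⟨hN'⟩
  have hNr : lam * (a * b) * (t / N) ≤ rA := by
    rw [div_lt_iff₀ hrA] at hNA
    rw [← mul_div_assoc, div_le_iff₀ hN0]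
    linarith
  have htN : 0 < a * (t / N) := by positivity
  have hN1 : a * (t / N) ≤ rX := by
    rw [div_lt_iff₀ hrX] at hNX
    rw [← mul_div_assoc, div_le_iff₀ hN0]
    linarith
  have hPol : PolC X N (a * (t / N)) := by
    refine Pool.Agent.Y590.GE.t_BK Pool.Agent.Y812.GE.t_EN X rX mX hmX N (a * (t / N)) htN hN1 ?_
    intro x hx hxe he
    apply hno
    have hpos : 0 < En N x := lt_of_lt_of_le (by positivity) hxe
    have h1 := Pool.Agent.Y165.GE.t_CG X rX mX hmX N (a * (t / N)) hN1 x hx he hpos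
    refine h1.mono ?_
    have h2 : (N : ℝ) * (a * (t / N)) = a * t := by
      field_simp
    rw [h2]
    exact htL
  have h1 := tr2 hG hs hl0.le (push hret ha.le hb hPol)
  have h2 : lam * (b * (a * (t / N))) = lam * (a * b) * (t / N) := by ring
  rw [h2] at h1
  exact Pool.Agent.Y50.GE.t_OM A rA mA hmA p (lam * (a * b)) t N hlab ht hNr h1

end Pool.Agent.Q144.LR
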