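import Pool.Agent.Q144.LR.Core
import Pool.Agent.Y686.GE.EIL
import Pool.Agent.Y903.GE.CUT
import Pool.Agent.Y438.GE.Thick
import Pool.Agent.Y427.GE.WID
import Pool.Agent.Y427.GE.BD
import Pool.Agent.Y73.GE.Cone
import Pool.Agent.Y523.GE.EXT
import Pool.Agent.Y891.GE.NRV
import Pool.Agent.Y891.GE.SETL

/-!
# Lipschitz retracts: short closed geodesics, diameter and volume
-/

set_option autoImplicit false

open Set Topology MeasureTheory unitInterval

noncomputable section

namespace Pool.Agent.Q144.LR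

open Pool.Agent.Y489.GE

theorem h_REC : S_REC :=
  Pool.Agent.Y812.GE.t_REC Pool.Agent.Y467.GE.t_CP Pool.Agent.Y467.GE.t_STEP

theorem h_NRV : S_NRV :=
  Pool.Agent.Y891.GE.t_NRV
      (Pool.Agent.Y523.GE.t_EXT Pool.Agent.Y73.GE.t_CONE
        (Pool.Agent.Y427.GE.t_BD Pool.Agent.Y26.GE.t_KUHN))

theorem h_WID : S_WID :=
  Pool.Agent.Y427.GE.t_WID (Pool.Agent.Y903.GE.t_CUT Pool.Agent.Y686.GE.t_EIL)
      Pool.Agent.Y438.GE.t_THICK

/-- the constants of a retraction onto a space with two points -/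
theorem ab_ge {A X : Type} [MetricSpace A] [MetricSpace X] {a b : ℝ} {ι : A → X} {ρ : X → A}
    (h : Retr a b ι ρ) (hb : 0 ≤ b) {x y : A} (hxy : x ≠ y) : 1 ≤ a * b := by
  have h1 := h.ret (ι x) (ι y)
  rw [h.id, h.id] at h1
  have h2 := h.inc x y
  have h3 : 0 < dist x y := dist_pos.2 hxy
  have h4 : dist x y ≤ b * (a * dist x y) := h1.trans (mul_le_mul_of_nonneg_left h2 hb)
  by_contra hc
  rw [not_le] at hc
  nlinarith

/-- contraction of the maps into `A`, or a short closed geodesic in `X` -/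
theorem coreA {X A G : Type} [MetricSpace X] [CompactSpace X] [MetricSpace A]
    [CompactSpace A] [Group G] [TopologicalSpace G] [IsTopologicalGroup G] [MulAction G A]
    [ContinuousSMul G A] {a b : ℝ} {ι : A → X} {ρ : X → A} (hret : Retr a b ι ρ) (ha : 0 ≤ a)
    (hb : 0 ≤ b) (rX : ℝ) (hrX : 0 < rX) (hX : GeodSpace X) (hUX : UniqGeod X rX)
    (rA : ℝ) (hrA : 0 < rA) (hA : GeodSpace A) (hUA : UniqGeod A rA) (p : A)
    (lam : ℝ) (hG : ∀ (g : G) (x y : A), dist (g • x) (g • y) ≤ lam * dist x y)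
    (hs : LocSec A G p) (q : ℕ) (hq : 1 ≤ q) (K : Type) [MetricSpace K] [CompactSpace K]
    (hK : CovDim K q) (f : K → A) (hf : Continuous f) (B : Set K) (hB : ∀ k ∈ B, f k = p) {L : ℝ}
    (hL : 2 * a * sg (lam * (a * b)) q * Metric.diam (univ : Set A) < L)
    (hno : ¬ ClosedGeod X L) :
    ∃ H : K → ℝ → A, Continuous (fun z : K × ℝ => H z.1 z.2) ∧ (∀ k, H k 0 = p) ∧
      (∀ k, H k 1 = f k) ∧ ∀ k ∈ B, ∀ s, H k s = p := by
  classical
  by_cases hsub : Subsingleton A
  · exact ⟨fun _ _ => p, continuous_const, fun _ => rfl, fun k => Subsingleton.elim _ _,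
      fun _ _ _ => rfl⟩
  have hnt : Nontrivial A := not_subsingleton_iff_nontrivial.1 hsub
  obtain ⟨x₀, y₀, hxy⟩ := exists_pair_ne A
  have hab := ab_ge hret hb hxy
  have ha0 : 0 < a := by
    rcases ha.eq_or_lt with h | h
    · rw [← h, zero_mul] at hab
      linarith
    · exact h
  have hd0 : 0 < dist x₀ y₀ := dist_pos.2 hxy
  have hlam : 1 ≤ lam := by
    have := hG 1 x₀ y₀
    rw [one_smul, one_smul] at this
    nlinarith
  have hlab : 1 ≤ lam * (a * b) := by nlinarith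
  obtain ⟨l, hl⟩ : ∃ l, l = lam * (a * b) := ⟨_, rfl⟩
  rw [← hl] at hL hlab
  have hbd : Bornology.IsBounded (univ : Set A) := isCompact_univ.isBounded
  obtain ⟨D, hD⟩ : ∃ D, D = Metric.diam (univ : Set A) := ⟨_, rfl⟩
  rw [← hD] at hL
  have hdD : ∀ x y : A, dist x y ≤ D := fun x y => by
    rw [hD]
    exact Metric.dist_le_diam_of_mem hbd (mem_univ x) (mem_univ y)
  have hDpos : 0 < D := lt_of_lt_of_le hd0 (hdD _ _)
  obtain ⟨S, hS⟩ : ∃ S, S = sg l q := ⟨_, rfl⟩
  rw [← hS] at hL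
  have hS1 : 1 ≤ S := by rw [hS]; exact sg_ge_one hlab hq
  obtain ⟨mX, hmX⟩ := Pool.Agent.Y467.GE.t_MG X rX hrX hX hUX
  obtain ⟨mA, hmA⟩ := Pool.Agent.Y467.GE.t_MG A rA hrA hA hUA
  have hrX2 : 0 < rX / 2 := by linarith
  have hrA2 : 0 < rA / 2 := by linarith
  obtain ⟨ε, hε⟩ : ∃ ε, ε = min (rA / 2) ((L - 2 * a * S * D) / (2 * a * S)) := ⟨_, rfl⟩
  have haS : 0 < 2 * a * S := by positivity
  have hε0 : 0 < ε := by
    rw [hε]
    refine lt_min hrA2 (div_pos (by linarith) haS)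
  have hεr : ε ≤ rA / 2 := by rw [hε]; exact min_le_left _ _
  have hεL : 2 * a * S * (D + ε) ≤ L := by
    have h1 : ε ≤ (L - 2 * a * S * D) / (2 * a * S) := by rw [hε]; exact min_le_right _ _
    rw [le_div_iff₀ haS] at h1
    linarith
  have hb0 : 0 < D + ε := by linarith
  have hOm : ∀ j, j < q → OmC p (al l (D + ε) j + (D + ε)) (l * (al l (D + ε) j + (D + ε))) := by
    intro j hj
    obtain ⟨ha1, ha2⟩ := al_bounds hlab hb0.le hj
    change _ ≤ 2 * (D + ε) * sg l q at ha2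
    rw [← hS] at ha2
    have h2 := omC_retract hret ha0 hb hab hmX hrX2 hmA hrA2 hlam hG hs hno
      (t := al l (D + ε) j + (D + ε)) (by linarith) (by
        refine le_trans (mul_le_mul_of_nonneg_left ha2 ha0.le) ?_
        refine le_trans (le_of_eq ?_) hεL
        ring)
    rw [← hl] at h2
    exact h2
  obtain ⟨t, ww, hdata⟩ := Pool.Agent.Y911.GE.t_SET A K q hK (rA / 2) mA hmA p D hDpos.le
    (fun y => exists_path hA p y hDpos (hdD p y)) ε hε0 hεr f hf B hB
  obtain ⟨Γ, hΓ1, hΓ2, hΓ3⟩ := h_REC A K p l (D + ε) q hlab hb0.le hOm f B t ww hdata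
  refine ⟨fun k s => Γ k (s * al l (D + ε) q), ?_, ?_, ?_, ?_⟩
  · exact eval_cont (F := fun z : K × ℝ => Γ z.1) (hΓ1.comp continuous_fst)
      (fun z => (hΓ2 z.1).1.1) (continuous_snd.mul continuous_const)
  · intro k
    dsimp only
    rw [zero_mul]
    exact (hΓ2 k).1.2.1 0 le_rfl
  · intro k
    dsimp only
    rw [one_mul]
    exact (hΓ2 k).2
  · intro k hk s
    dsimp only
    rw [hΓ3 k hk]

theorem diam_le {X A : Type} [MetricSpace X] [CompactSpace X] [MetricSpace A]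
    {a b : ℝ} {ι : A → X} {ρ : X → A} (hret : Retr a b ι ρ) (hb : 0 ≤ b) :
    Metric.diam (univ : Set A) ≤ b * Metric.diam (univ : Set X) := by
  refine Metric.diam_le_of_forall_dist_le (mul_nonneg hb Metric.diam_nonneg) ?_
  intro x _ y _
  have h1 := hret.ret (ι x) (ι y)
  rw [hret.id, hret.id] at h1
  refine h1.trans (mul_le_mul_of_nonneg_left ?_ hb)
  exact Metric.dist_le_diam_of_mem isCompact_univ.isBounded (mem_univ _) (mem_univ _)

/-- the diameter theorem -/
theorem mainA (X A G : Type) [MetricSpace X] [CompactSpace X] [MetricSpace A]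
    [CompactSpace A] [Group G] [TopologicalSpace G] [IsTopologicalGroup G] [MulAction G A]
    [ContinuousSMul G A] (a b lam : ℝ) (ha : 0 ≤ a) (hb : 0 ≤ b) (ι : A → X) (ρ : X → A)
    (hret : Retr a b ι ρ) (r : ℝ) (hr : 0 < r) (hX : GeodSpace X) (hUX : UniqGeod X r)
    (hA : GeodSpace A) (hUA : UniqGeod A r) (p : A)
    (hG : ∀ (g : G) (x y : A), dist (g • x) (g • y) ≤ lam * dist x y) (hs : LocSec A G p)
    (q : ℕ) (hq : 1 ≤ q)
    (h : Nontrivial (HomotopyGroup (Fin q) A p) ∨ CovDim A q ∧ ¬ ContractibleSpace A) :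
    (∀ L : ℝ, 2 * a * sg (lam * (a * b)) q * Metric.diam (univ : Set A) < L → ClosedGeod X L) ∧
    ∀ L : ℝ, 2 * (a * b) * sg (lam * (a * b)) q * Metric.diam (univ : Set X) < L →
      ClosedGeod X L := by
  have key : ∀ L : ℝ, 2 * a * sg (lam * (a * b)) q * Metric.diam (univ : Set A) < L →
      ClosedGeod X L := by
    intro L hL
    by_contra hno
    rcases h with h | ⟨h1, h2⟩
    · have := homotopyGroup_trivial A p q fun f hf hB =>
        coreA hret ha hb r hr hX hUX r hr hA hUA p lam hG hs q hq _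
          (Pool.Agent.Y26.GE.t_KUHN q) f hf _ hB hL hno
      exact not_subsingleton _ this
    · obtain ⟨H, h3, h4, h5, _⟩ := coreA hret ha hb r hr hX hUX r hr hA hUA p lam hG hs q hq A h1
        (fun x => x) continuous_id ∅ (fun k hk => hk.elim) hL hno
      exact h2 (contractible_of A p ⟨H, h3, h4, h5⟩)
  have hsub : ¬ Subsingleton A := by
    intro hA1
    rcases h with h | ⟨h1, h2⟩
    · have hS : Subsingleton (HomotopyGroup (Fin q) A p) :=
        homotopyGroup_trivial A p q fun f _ _ => ⟨fun _ _ => p, continuous_const, fun _ => rfl,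
          fun k => Subsingleton.elim _ _, fun _ _ _ => rfl⟩
      exact not_subsingleton _ hS
    · exact h2 (contractible_of A p ⟨fun _ _ => p, continuous_const, fun _ => rfl,
          fun k => Subsingleton.elim _ _⟩)
  have hnt : Nontrivial A := not_subsingleton_iff_nontrivial.1 hsub
  obtain ⟨x₀, y₀, hxy⟩ := exists_pair_ne A
  have hab := ab_ge hret hb hxy
  have hlam : 1 ≤ lam := by
    have h1 := hG 1 x₀ y₀
    have hd0 : 0 < dist x₀ y₀ := dist_pos.2 hxy
    rw [one_smul, one_smul] at h1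
    nlinarith
  have hlab : 1 ≤ lam * (a * b) := by nlinarith
  refine ⟨key, fun L hL => key L (lt_of_le_of_lt ?_ hL)⟩
  have h1 := diam_le hret hb
  have h2 := sg_ge_one hlab hq
  calc 2 * a * sg (lam * (a * b)) q * Metric.diam (univ : Set A)
      ≤ 2 * a * sg (lam * (a * b)) q * (b * Metric.diam (univ : Set X)) :=
        mul_le_mul_of_nonneg_left h1 (by positivity)
    _ = 2 * (a * b) * sg (lam * (a * b)) q * Metric.diam (univ : Set X) := by ring

/-- no short closed geodesics in `X`: local contractibility of the retract `A` -/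
theorem lc_retract {X A G : Type} [MetricSpace X] [CompactSpace X] [MetricSpace A]
    [CompactSpace A] [Group G] [TopologicalSpace G] [IsTopologicalGroup G] [MulAction G A]
    [ContinuousSMul G A] {a b : ℝ} {ι : A → X} {ρ : X → A} (hret : Retr a b ι ρ) (ha : 1 ≤ a)
    (hb : 1 ≤ b) {rX : ℝ} (hrX : 0 < rX) (hX : GeodSpace X) (hUX : UniqGeod X rX)
    {rA : ℝ} (hrA : 0 < rA) (hA : GeodSpace A) (hUA : UniqGeod A rA) {lam : ℝ} (hlam : 1 ≤ lam)
    (hG : ∀ (g : G) (x y : A), dist (g • x) (g • y) ≤ lam * dist x y) (hs : ∀ p, LocSec A G p)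
    (q : ℕ) (hq : 1 ≤ q) {L : ℝ} (hno : ¬ ClosedGeod X L) :
    LC A q (L / (4 * a * sg (lam * (a * b)) q)) (4 * sg (lam * (a * b)) (q + 1)) := by
  intro p K _ _ hK f hf s hs0 hsL hfs
  have hab : 1 ≤ a * b := by nlinarith
  have hlab : 1 ≤ lam * (a * b) := by nlinarith
  obtain ⟨l, hl⟩ : ∃ l, l = lam * (a * b) := ⟨_, rfl⟩
  rw [← hl] at hsL hlab ⊢
  have hS := sg_ge_one hlab hq
  obtain ⟨mX, hmX⟩ := Pool.Agent.Y467.GE.t_MG X rX hrX hX hUX
  obtain ⟨mA, hmA⟩ := Pool.Agent.Y467.GE.t_MG A rA hrA hA hUA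
  have hrX2 : 0 < rX / 2 := by linarith
  have hrA2 : 0 < rA / 2 := by linarith
  obtain ⟨ε, hε⟩ : ∃ ε, ε = min s (rA / 2) := ⟨_, rfl⟩
  have hε0 : 0 < ε := by rw [hε]; exact lt_min hs0 hrA2
  have hεs : ε ≤ s := by rw [hε]; exact min_le_left _ _
  have hεr : ε ≤ rA / 2 := by rw [hε]; exact min_le_right _ _
  have hb0 : 0 < s + ε := by linarith
  have hsL' : 4 * a * sg l q * s ≤ L := by
    rw [le_div_iff₀ (by positivity)] at hsL
    linarith
  have hOm : ∀ j, j < q → OmC p (al l (s + ε) j + (s + ε)) (l * (al l (s + ε) j + (s + ε))) := by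
    intro j hj
    obtain ⟨ha1, ha2⟩ := al_bounds hlab hb0.le hj
    change _ ≤ 2 * (s + ε) * sg l q at ha2
    have h2 := omC_retract hret (by linarith) (by linarith) hab hmX hrX2 hmA hrA2 hlam hG (hs p)
      hno (t := al l (s + ε) j + (s + ε)) (by linarith) (by
        refine le_trans (mul_le_mul_of_nonneg_left ha2 (by linarith)) ?_
        refine le_trans ?_ hsL'
        have h3 : 0 ≤ a * sg l q := by positivity
        nlinarith)
    rw [← hl] at h2
    exact h2
  obtain ⟨t, ww, hdata⟩ := Pool.Agent.Y891.GE.t_SETL A K q hK (rA / 2) mA hmA p s hs0.le ε hε0 hεr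
    f hf (fun k => exists_path hA p (f k) hs0 (hfs k)) ∅ (fun k hk => hk.elim)
  obtain ⟨Γ, hΓ1, hΓ2, _⟩ := h_REC A K p l (s + ε) q hlab hb0.le hOm f ∅ t ww hdata
  have hal0 := al_nonneg hlab hb0.le q
  refine ⟨fun k u => Γ k (u * al l (s + ε) q), ?_, ?_, ?_, ?_⟩
  · exact eval_cont (F := fun z : K × ℝ => Γ z.1) (hΓ1.comp continuous_fst)
      (fun z => (hΓ2 z.1).1.1) (continuous_snd.mul continuous_const)
  · intro k
    dsimp only
    rw [zero_mul]
    exact (hΓ2 k).1.2.1 0 le_rfl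
  · intro k
    dsimp only
    rw [one_mul]
    exact (hΓ2 k).2
  · intro k u hu
    dsimp only
    have h1 := (hΓ2 k).1.1 0 (u * al l (s + ε) q)
    rw [(hΓ2 k).1.2.1 0 le_rfl, zero_sub, abs_neg,
      abs_of_nonneg (mul_nonneg hu.1 hal0)] at h1
    obtain ⟨_, ha2⟩ := al_bounds hlab hb0.le (Nat.lt_succ_self q)
    change _ ≤ 2 * (s + ε) * sg l (q + 1) at ha2
    have hS1 := sg_ge_one hlab (Nat.succ_le_succ (Nat.zero_le q))
    have h2 : u * al l (s + ε) q ≤ al l (s + ε) q := by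
      nlinarith [hu.2]
    have h3 : 2 * (s + ε) * sg l (q + 1) ≤ 4 * sg l (q + 1) * s := by
      nlinarith
    linarith

end Pool.Agent.Q144.LR
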