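import Pool.Agent.Q144.LR.Fin

/-!
# Lipschitz retracts of Lipschitz homogeneous spaces
-/

set_option autoImplicit false

open Set Topology MeasureTheory unitInterval

noncomputable section

namespace Pool.Agent.Q144.LR

open Pool.Agent.Y489.GE

/-- transport of the contraction to the first vertex `p` -/
theorem tr3 {X Y G : Type} [MetricSpace X] [CompactSpace X] [MetricSpace Y] [Group G]
    [TopologicalSpace G] [IsTopologicalGroup G] [MulAction G Y] [ContinuousSMul G Y] {a b : ℝ}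
    {ι : X → Y} {ρ : Y → X} (hret : Retr a b ι ρ) (ha : 0 ≤ a) (hb : 0 ≤ b) {p : X} {lam : ℝ}
    (hlip : ∀ (g : G) (x y : Y), dist (g • x) (g • y) ≤ lam * dist x y)
    (hsec : LocSec Y G (ι p)) (hlam : 0 ≤ lam) {N : ℕ} [NeZero N] {δ : ℝ} (hPol : PolC X N δ) :
    PolpC X N δ (lam * (a * b) * δ) p := by
  obtain ⟨c, H, hH, hHT, hH0', hH1', hHZ'⟩ := hPol
  have hH0 : ∀ (y : ↥(Pol X N δ)) (s : ℝ), s ≤ 0 → H y s = y.1 := hH0'
  have hH1 : ∀ (y : ↥(Pol X N δ)) (s : ℝ), 1 ≤ s → H y s = fun _ => c y := hH1'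
  have hHZ : ∀ y : ↥(Pol X N δ), (∀ i, y.1 i = y.1 0) → ∀ s, H y s = y.1 := hHZ'
  have hιc := cont_of ha hret.inc
  have hρc := cont_of hb hret.ret
  have hcomp : CompactSpace ↥(Polp X N δ p) :=
    isCompact_iff_compactSpace.1 (Pool.Agent.Y812.GE.isClosed_Polp X N δ p).isCompact
  obtain ⟨u, hu⟩ : ∃ u : ↥(Polp X N δ p) → ↥(Pol X N δ), ∀ x, u x = ⟨x.1, x.2.1⟩ :=
    ⟨_, fun _ => rfl⟩
  have hu1 : ∀ x, (u x).1 = x.1 := fun x => by rw [hu]
  have hucont : Continuous u := by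
    rw [continuous_induced_rng]
    have : (Subtype.val ∘ u) = Subtype.val := funext fun x => hu1 x
    rw [this]
    exact continuous_subtype_val
  have hHu : Continuous (fun z : ↥(Polp X N δ p) × ℝ => H (u z.1) z.2) :=
    hH.comp ((hucont.comp continuous_fst).prodMk continuous_snd)
  obtain ⟨g, hg, hg0, hg1, hgp, hgZ⟩ := Pool.Agent.Y911.GE.t_LIFT Y G (ι p) lam hlip hsec
    ↥(Polp X N δ p) (fun x s => ι (H (u x) s 0))
    (hιc.comp ((continuous_apply (0 : ZMod N)).comp hHu))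
    (fun x s hs => by
      rw [hH0 _ _ hs, hu1]
      exact congrArg ι x.2.2)
    (fun x s hs => by
      rw [hH1 _ _ hs, hH1 _ _ le_rfl])
  refine ⟨fun x s i => ρ ((g x s)⁻¹ • ι (H (u x) s i)), ?_, ?_, ?_, ?_, ?_⟩
  · refine continuous_pi fun i => hρc.comp ?_
    exact hg.inv.smul (hιc.comp ((continuous_apply i).comp hHu))
  · intro x s
    constructor
    · intro i
      refine (hret.ret _ _).trans ?_
      have h1 := hlip (g x s)⁻¹ (ι (H (u x) s i)) (ι (H (u x) s (i + 1)))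
      have h2 := hret.inc (H (u x) s i) (H (u x) s (i + 1))
      have h3 := hHT (u x) s i
      calc b * dist ((g x s)⁻¹ • ι (H (u x) s i)) ((g x s)⁻¹ • ι (H (u x) s (i + 1)))
          ≤ b * (lam * (a * δ)) := by
            refine mul_le_mul_of_nonneg_left (h1.trans ?_) hb
            refine mul_le_mul_of_nonneg_left (h2.trans ?_) hlam
            exact mul_le_mul_of_nonneg_left h3 ha
        _ = lam * (a * b) * δ := by ring
    · change ρ ((g x s)⁻¹ • ι (H (u x) s 0)) = p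
      rw [← hgp x s, inv_smul_smul]
      exact hret.id p
  · intro x s hs
    funext i
    dsimp only
    rw [hg0 x s hs, inv_one, one_smul, hH0 _ _ hs, hu1]
    exact hret.id _
  · intro x s hs
    funext i
    dsimp only
    have h1 := hgp x s
    rw [hH1 _ _ hs] at h1 ⊢
    rw [← h1, inv_smul_smul]
    exact hret.id p
  · intro x hx s
    have h1 : ∀ s, H (u x) s = x.1 := by
      intro s
      rw [← hu1 x]
      refine hHZ (u x) ?_ s
      intro i
      rw [hu1]
      rw [hx i, hx 0]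
    have h2 : g x s = 1 := hgZ x (fun s => by
      rw [h1 s]
      exact congrArg ι (hx 0)) s
    funext i
    dsimp only
    rw [h2, inv_one, one_smul, h1 s]
    exact hret.id _

/-- no closed geodesics of length at most `L`: contraction of the loops of length `t ≤ L` -/
theorem omC_hom {X Y G : Type} [MetricSpace X] [CompactSpace X] [MetricSpace Y] [Group G]
    [TopologicalSpace G] [IsTopologicalGroup G] [MulAction G Y] [ContinuousSMul G Y] {a b : ℝ}
    {ι : X → Y} {ρ : Y → X} (hret : Retr a b ι ρ) (ha : 0 ≤ a) (hb : 0 ≤ b) {lam : ℝ}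
    (hlam : 0 ≤ lam) (hlab : 1 ≤ lam * (a * b)) {r : ℝ} {m : X → X → ℝ → X} (hm : GMap X r m)
    (hr : 0 < r) {p : X} (hG : ∀ (g : G) (x y : Y), dist (g • x) (g • y) ≤ lam * dist x y)
    (hs : LocSec Y G (ι p)) {L : ℝ} (hno : ¬ ClosedGeod X L) {t : ℝ} (ht : 0 < t) (htL : t ≤ L) :
    OmC p t (lam * (a * b) * t) := by
  obtain ⟨N, hN⟩ := exists_nat_gt (lam * (a * b) * t / r)
  have hN0 : (0 : ℝ) < N := lt_of_le_of_lt (by positivity) hN
  have hN' : N ≠ 0 := by
    rintro rfl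
    simp at hN0
  have : NeZero N := ⟨hN'⟩
  have hNr : lam * (a * b) * (t / N) ≤ r := by
    rw [div_lt_iff₀ hr] at hN
    rw [← mul_div_assoc, div_le_iff₀ hN0]
    linarith
  have htN : 0 < t / N := by positivity
  have hN1 : t / N ≤ r := by
    refine le_trans ?_ hNr
    nlinarith
  have hPol : PolC X N (t / N) := by
    refine Pool.Agent.Y590.GE.t_BK Pool.Agent.Y812.GE.t_EN X r m hm N (t / N) htN hN1 ?_
    intro x hx hxe he
    apply hno
    have hpos : 0 < En N x := lt_of_lt_of_le (by positivity) hxe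
    have h1 := Pool.Agent.Y165.GE.t_CG X r m hm N (t / N) hN1 x hx he hpos
    rw [mul_div_cancel₀ _ hN0.ne'] at h1
    exact h1.mono htL
  exact Pool.Agent.Y50.GE.t_OM X r m hm p (lam * (a * b)) t N hlab ht hNr
    (tr3 hret ha hb hG hs hlam hPol)

/-- the constants -/
theorem lab_ge {X Y G : Type} [MetricSpace X] [MetricSpace Y] [Group G] [MulAction G Y] {a b : ℝ}
    {ι : X → Y} {ρ : Y → X} (hret : Retr a b ι ρ) (hb : 0 ≤ b) {lam : ℝ}
    (hG : ∀ (g : G) (x y : Y), dist (g • x) (g • y) ≤ lam * dist x y) {x y : X} (hxy : x ≠ y) :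
    1 ≤ lam ∧ 1 ≤ lam * (a * b) := by
  have hab := ab_ge hret hb hxy
  have h0 : ι x ≠ ι y := fun h => hxy (by rw [← hret.id x, ← hret.id y, h])
  have h1 := hG 1 (ι x) (ι y)
  have hd0 : 0 < dist (ι x) (ι y) := dist_pos.2 h0
  rw [one_smul, one_smul] at h1
  have h2 : 1 ≤ lam := by nlinarith
  exact ⟨h2, by nlinarith⟩

/-- contraction of the maps into `X`, or a short closed geodesic in `X` -/
theorem coreC {X Y G : Type} [MetricSpace X] [CompactSpace X] [MetricSpace Y] [Group G]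
    [TopologicalSpace G] [IsTopologicalGroup G] [MulAction G Y] [ContinuousSMul G Y] {a b : ℝ}
    {ι : X → Y} {ρ : Y → X} (hret : Retr a b ι ρ) (ha : 0 ≤ a) (hb : 0 ≤ b) (r : ℝ) (hr : 0 < r)
    (hX : GeodSpace X) (hUX : UniqGeod X r) (p : X) (lam : ℝ)
    (hG : ∀ (g : G) (x y : Y), dist (g • x) (g • y) ≤ lam * dist x y) (hs : LocSec Y G (ι p))
    (q : ℕ) (hq : 1 ≤ q) (K : Type) [MetricSpace K] [CompactSpace K]
    (hK : CovDim K q) (f : K → X) (hf : Continuous f) (B : Set K) (hB : ∀ k ∈ B, f k = p) {L : ℝ}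
    (hL : 2 * sg (lam * (a * b)) q * Metric.diam (univ : Set X) < L)
    (hno : ¬ ClosedGeod X L) :
    ∃ H : K → ℝ → X, Continuous (fun z : K × ℝ => H z.1 z.2) ∧ (∀ k, H k 0 = p) ∧
      (∀ k, H k 1 = f k) ∧ ∀ k ∈ B, ∀ s, H k s = p := by
  classical
  by_cases hsub : Subsingleton X
  · exact ⟨fun _ _ => p, continuous_const, fun _ => rfl, fun k => Subsingleton.elim _ _,
      fun _ _ _ => rfl⟩
  have hnt : Nontrivial X := not_subsingleton_iff_nontrivial.1 hsub
  obtain ⟨x₀, y₀, hxy⟩ := exists_pair_ne X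
  obtain ⟨hlam, hlab⟩ := lab_ge hret hb hG hxy
  have hd0 : 0 < dist x₀ y₀ := dist_pos.2 hxy
  obtain ⟨l, hl⟩ : ∃ l, l = lam * (a * b) := ⟨_, rfl⟩
  rw [← hl] at hL
  have hl1 : 1 ≤ l := by rw [hl]; exact hlab
  have hbd : Bornology.IsBounded (univ : Set X) := isCompact_univ.isBounded
  obtain ⟨D, hD⟩ : ∃ D, D = Metric.diam (univ : Set X) := ⟨_, rfl⟩
  rw [← hD] at hL
  have hdD : ∀ x y : X, dist x y ≤ D := fun x y => by
    rw [hD]
    exact Metric.dist_le_diam_of_mem hbd (mem_univ x) (mem_univ y)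
  have hDpos : 0 < D := lt_of_lt_of_le hd0 (hdD _ _)
  obtain ⟨S, hS⟩ : ∃ S, S = sg l q := ⟨_, rfl⟩
  rw [← hS] at hL
  have hS1 : 1 ≤ S := by rw [hS]; exact sg_ge_one hl1 hq
  obtain ⟨m, hm⟩ := Pool.Agent.Y467.GE.t_MG X r hr hX hUX
  have hr2 : 0 < r / 2 := by linarith
  obtain ⟨ε, hε⟩ : ∃ ε, ε = min (r / 2) ((L - 2 * S * D) / (2 * S)) := ⟨_, rfl⟩
  have haS : 0 < 2 * S := by positivity
  have hε0 : 0 < ε := by
    rw [hε]
    refine lt_min hr2 (div_pos (by linarith) haS)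
  have hεr : ε ≤ r / 2 := by rw [hε]; exact min_le_left _ _
  have hεL : 2 * S * (D + ε) ≤ L := by
    have h1 : ε ≤ (L - 2 * S * D) / (2 * S) := by rw [hε]; exact min_le_right _ _
    rw [le_div_iff₀ haS] at h1
    linarith
  have hb0 : 0 < D + ε := by linarith
  have hOm : ∀ j, j < q → OmC p (al l (D + ε) j + (D + ε)) (l * (al l (D + ε) j + (D + ε))) := by
    intro j hj
    obtain ⟨ha1, ha2⟩ := al_bounds hl1 hb0.le hj
    change _ ≤ 2 * (D + ε) * sg l q at ha2
    rw [← hS] at ha2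
    have h2 := omC_hom hret ha hb (by linarith) hlab hm hr2 hG hs hno
      (t := al l (D + ε) j + (D + ε)) (by linarith) (by
        refine ha2.trans (le_trans (le_of_eq ?_) hεL)
        ring)
    rw [← hl] at h2
    exact h2
  obtain ⟨t, ww, hdata⟩ := Pool.Agent.Y911.GE.t_SET X K q hK (r / 2) m hm p D hDpos.le
    (fun y => exists_path hX p y hDpos (hdD p y)) ε hε0 hεr f hf B hB
  obtain ⟨Γ, hΓ1, hΓ2, hΓ3⟩ := h_REC X K p l (D + ε) q hl1 hb0.le hOm f B t ww hdata
  refine ⟨fun k s => Γ k (s * al l (D + ε) q), ?_, ?_, ?_, ?_⟩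
  · exact eval_cont (F := fun z : K × ℝ => Γ z.1) (hΓ1.comp continuous_fst)
      (fun z => (hΓ2 z.1).1.1) (continuous_snd.mul continuous_const)
  · intro k
    dsimp only
    rw [zero_mul]
    exact (hΓ2 k).1.2.1 0 le_rfl
  · intro k
    dsimp only
    rw [one_mul]
    exact (hΓ2 k).2
  · intro k hk s
    dsimp only
    rw [hΓ3 k hk]

/-- the diameter theorem -/
theorem mainC (X Y G : Type) [MetricSpace X] [CompactSpace X] [MetricSpace Y] [Group G]
    [TopologicalSpace G] [IsTopologicalGroup G] [MulAction G Y] [ContinuousSMul G Y] (a b lam : ℝ)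
    (ha : 0 ≤ a) (hb : 0 ≤ b) (ι : X → Y) (ρ : Y → X) (hret : Retr a b ι ρ) (r : ℝ) (hr : 0 < r)
    (hX : GeodSpace X) (hUX : UniqGeod X r) (p : X)
    (hG : ∀ (g : G) (x y : Y), dist (g • x) (g • y) ≤ lam * dist x y) (hs : LocSec Y G (ι p))
    (q : ℕ) (hq : 1 ≤ q)
    (h : Nontrivial (HomotopyGroup (Fin q) X p) ∨ CovDim X q ∧ ¬ ContractibleSpace X) :
    ∀ L : ℝ, 2 * sg (lam * (a * b)) q * Metric.diam (univ : Set X) < L → ClosedGeod X L := by
  intro L hL
  by_contra hno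
  rcases h with h | ⟨h1, h2⟩
  · have := homotopyGroup_trivial X p q fun f hf hB =>
      coreC hret ha hb r hr hX hUX p lam hG hs q hq _
        (Pool.Agent.Y26.GE.t_KUHN q) f hf _ hB hL hno
    exact not_subsingleton _ this
  · obtain ⟨H, h3, h4, h5, _⟩ := coreC hret ha hb r hr hX hUX p lam hG hs q hq X h1
      (fun x => x) continuous_id ∅ (fun k hk => hk.elim) hL hno
    exact h2 (contractible_of X p ⟨H, h3, h4, h5⟩)

/-- no short closed geodesics in `X`: local contractibility -/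
theorem lc_hom {X Y G : Type} [MetricSpace X] [CompactSpace X] [MetricSpace Y] [Group G]
    [TopologicalSpace G] [IsTopologicalGroup G] [MulAction G Y] [ContinuousSMul G Y] {a b : ℝ}
    {ι : X → Y} {ρ : Y → X} (hret : Retr a b ι ρ) (ha : 0 ≤ a) (hb : 0 ≤ b) {lam : ℝ}
    (hlam : 0 ≤ lam) (hlab : 1 ≤ lam * (a * b)) {r : ℝ} (hr : 0 < r)
    (hX : GeodSpace X) (hUX : UniqGeod X r)
    (hG : ∀ (g : G) (x y : Y), dist (g • x) (g • y) ≤ lam * dist x y)
    (hs : ∀ p, LocSec Y G (ι p)) (q : ℕ) (hq : 1 ≤ q) {L : ℝ} (hno : ¬ ClosedGeod X L) :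
    LC X q (L / (4 * sg (lam * (a * b)) q)) (4 * sg (lam * (a * b)) (q + 1)) := by
  intro p K _ _ hK f hf s hs0 hsL hfs
  obtain ⟨l, hl⟩ : ∃ l, l = lam * (a * b) := ⟨_, rfl⟩
  rw [← hl] at hsL ⊢
  have hl1 : 1 ≤ l := by rw [hl]; exact hlab
  have hS := sg_ge_one hl1 hq
  obtain ⟨m, hm⟩ := Pool.Agent.Y467.GE.t_MG X r hr hX hUX
  have hr2 : 0 < r / 2 := by linarith
  obtain ⟨ε, hε⟩ : ∃ ε, ε = min s (r / 2) := ⟨_, rfl⟩
  have hε0 : 0 < ε := by rw [hε]; exact lt_min hs0 hr2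
  have hεs : ε ≤ s := by rw [hε]; exact min_le_left _ _
  have hεr : ε ≤ r / 2 := by rw [hε]; exact min_le_right _ _
  have hb0 : 0 < s + ε := by linarith
  have hsL' : 4 * sg l q * s ≤ L := by
    rw [le_div_iff₀ (by positivity)] at hsL
    linarith
  have hOm : ∀ j, j < q → OmC p (al l (s + ε) j + (s + ε)) (l * (al l (s + ε) j + (s + ε))) := by
    intro j hj
    obtain ⟨ha1, ha2⟩ := al_bounds hl1 hb0.le hj
    change _ ≤ 2 * (s + ε) * sg l q at ha2
    have h2 := omC_hom hret ha hb hlam hlab hm hr2 hG (hs p) hno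
      (t := al l (s + ε) j + (s + ε)) (by linarith) (by
        refine ha2.trans (le_trans ?_ hsL')
        nlinarith)
    rw [← hl] at h2
    exact h2
  obtain ⟨t, ww, hdata⟩ := Pool.Agent.Y891.GE.t_SETL X K q hK (r / 2) m hm p s hs0.le ε hε0 hεr
    f hf (fun k => exists_path hX p (f k) hs0 (hfs k)) ∅ (fun k hk => hk.elim)
  obtain ⟨Γ, hΓ1, hΓ2, _⟩ := h_REC X K p l (s + ε) q hl1 hb0.le hOm f ∅ t ww hdata
  have hal0 := al_nonneg hl1 hb0.le q
  refine ⟨fun k u => Γ k (u * al l (s + ε) q), ?_, ?_, ?_, ?_⟩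
  · exact eval_cont (F := fun z : K × ℝ => Γ z.1) (hΓ1.comp continuous_fst)
      (fun z => (hΓ2 z.1).1.1) (continuous_snd.mul continuous_const)
  · intro k
    dsimp only
    rw [zero_mul]
    exact (hΓ2 k).1.2.1 0 le_rfl
  · intro k
    dsimp only
    rw [one_mul]
    exact (hΓ2 k).2
  · intro k u hu
    dsimp only
    have h1 := (hΓ2 k).1.1 0 (u * al l (s + ε) q)
    rw [(hΓ2 k).1.2.1 0 le_rfl, zero_sub, abs_neg,
      abs_of_nonneg (mul_nonneg hu.1 hal0)] at h1
    obtain ⟨_, ha2⟩ := al_bounds hl1 hb0.le (Nat.lt_succ_self q)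
    change _ ≤ 2 * (s + ε) * sg l (q + 1) at ha2
    have hS1 := sg_ge_one hl1 (Nat.succ_le_succ (Nat.zero_le q))
    have h2 : u * al l (s + ε) q ≤ al l (s + ε) q := by
      nlinarith [hu.2]
    have h3 : 2 * (s + ε) * sg l (q + 1) ≤ 4 * sg l (q + 1) * s := by
      nlinarith
    linarith

/-- the volume theorem -/
theorem mainCV (n : ℕ) (hn : 1 ≤ n) (l : ℝ) (hl1 : 1 ≤ l) :
    ∃ C : ℝ, 0 < C ∧ ∀ (X Y G : Type) [MetricSpace X] [CompactSpace X] [MeasurableSpace X]
      [BorelSpace X] [MetricSpace Y] [Group G] [TopologicalSpace G] [IsTopologicalGroup G]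
      [MulAction G Y] [ContinuousSMul G Y] (a b lam : ℝ), 0 ≤ a → 0 ≤ b → lam * (a * b) ≤ l →
      ∀ (ι : X → Y) (ρ : Y → X), Retr a b ι ρ → ∀ r : ℝ, 0 < r → GeodSpace X → UniqGeod X r →
      (∀ (g : G) (x y : Y), dist (g • x) (g • y) ≤ lam * dist x y) →
      (∀ p, LocSec Y G (ι p)) → CovDim X n → ¬ Dom X n →
      (∀ w : ℝ, 0 < w → Cov X w n → ClosedGeod X (C * w)) ∧
      (μH[(n : ℝ)] (univ : Set X) ≠ ⊤ →
        ClosedGeod X (C * (μH[(n : ℝ)] (univ : Set X)).toReal ^ (1 / (n : ℝ)))) := by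
  obtain ⟨c, hc, hcov⟩ := h_WID n
  have hcW := cW_pos hl1 n
  have hn0 : (n : ℝ) ≠ 0 := by
    have : n ≠ 0 := by omega
    exact_mod_cast this
  have hκ : (0 : ℝ) < (2 / c) ^ (1 / (n : ℝ)) := by positivity
  refine ⟨cW l n * (1 + (2 / c) ^ (1 / (n : ℝ))), by positivity, ?_⟩
  intro X Y G _ _ _ _ _ _ _ _ _ _ a b lam ha hb hlabl ι ρ hret r hr hX hUX hG hs hdim hess
  have hwid : ∀ w : ℝ, 0 < w → Cov X w n → ClosedGeod X (cW l n * w) := by
    intro w hw hcw
    by_contra hno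
    apply hess
    obtain ⟨m, hm⟩ := Pool.Agent.Y467.GE.t_MG X r hr hX hUX
    by_cases hsub : Subsingleton X
    · have h1 := cE_ge_one (Lam := 1) le_rfl (2 * n + 1)
      obtain ⟨N, U, h2, h3, h4, h5⟩ := hcw
      exact h_NRV X (r / 2) m hm (by linarith) n (r / 2) 1 (r / 2 / (2 * cE 1 (2 * n + 1))) le_rfl
        (lc_trivial hm _) hdim (by positivity) ⟨N, U, h2, fun i x _ y _ => by
          rw [Subsingleton.elim x y, dist_self]
          positivity, h4, h5⟩ (le_of_eq (by field_simp))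
    have hnt : Nontrivial X := not_subsingleton_iff_nontrivial.1 hsub
    obtain ⟨x₀, y₀, hxy⟩ := exists_pair_ne X
    obtain ⟨hlam, hlab⟩ := lab_ge hret hb hG hxy
    -- we may take `lam * (a * b) = l`
    have hab := ab_ge hret hb hxy
    obtain ⟨lam', hlam'⟩ : ∃ lam', lam' = l / (a * b) := ⟨_, rfl⟩
    have hab0 : 0 < a * b := by linarith
    have hl' : lam' * (a * b) = l := by
      rw [hlam', div_mul_cancel₀ _ hab0.ne']
    have hle : lam ≤ lam' := by
      rw [hlam', le_div_iff₀ hab0]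
      exact hlabl
    have hG' : ∀ (g : G) (x y : Y), dist (g • x) (g • y) ≤ lam' * dist x y := fun g x y =>
      (hG g x y).trans (mul_le_mul_of_nonneg_right hle dist_nonneg)
    have hLC := lc_hom hret ha hb (by linarith) (by rw [hl']; exact hl1) hr hX hUX hG' hs
      (2 * n + 1) (by omega) hno
    rw [hl'] at hLC
    have h2 := sg_ge_one hl1 (q := 2 * n + 2) (by omega)
    have h1 := sg_ge_one hl1 (q := 2 * n + 1) (by omega)
    refine h_NRV X (r / 2) m hm (by linarith) n _ _ w ?_ hLC hdim hw hcw ?_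
    · change 1 ≤ 4 * sg l (2 * n + 2)
      linarith
    · rw [le_div_iff₀ (by positivity)]
      refine le_of_eq ?_
      simp only [cW]
      ring
  refine ⟨fun w hw hcw => (hwid w hw hcw).mono ?_, fun hfin => ?_⟩
  · rw [mul_assoc]
    refine mul_le_mul_of_nonneg_left ?_ hcW.le
    nlinarith
  · set V := (μH[(n : ℝ)] (univ : Set X)).toReal with hV
    have hV0 : 0 ≤ V := ENNReal.toReal_nonneg
    have hVe : μH[(n : ℝ)] (univ : Set X) = ENNReal.ofReal V := (ENNReal.ofReal_toReal hfin).symm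
    have hcovw : ∀ w : ℝ, 0 < w → V < c * w ^ n → Cov X w n := by
      intro w hw hVw
      refine hcov X w hw fun x => ?_
      calc μH[(n : ℝ)] (Metric.closedBall x w) ≤ μH[(n : ℝ)] (univ : Set X) :=
            measure_mono (subset_univ _)
        _ = ENNReal.ofReal V := hVe
        _ < ENNReal.ofReal (c * w ^ n) := (ENNReal.ofReal_lt_ofReal_iff (by positivity)).2 hVw
    rcases hV0.eq_or_lt with hV0 | hVpos
    · exfalso
      apply hess
      obtain ⟨m, hm⟩ := Pool.Agent.Y467.GE.t_MG X r hr hX hUX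
      have hr2 : 0 < r / 2 := by linarith
      have h1 := cE_ge_one (Lam := 1) le_rfl (2 * n + 1)
      have hw : 0 < r / 2 / (2 * cE 1 (2 * n + 1)) := by positivity
      refine h_NRV X (r / 2) m hm hr2 n (r / 2) 1 (r / 2 / (2 * cE 1 (2 * n + 1))) le_rfl
        (lc_trivial hm _) hdim hw (hcovw _ hw ?_) ?_
      · rw [← hV0]
        positivity
      · refine le_of_eq ?_
        field_simp
    · have hw : 0 < (2 * V / c) ^ (1 / (n : ℝ)) := by positivity
      have hwn : ((2 * V / c) ^ (1 / (n : ℝ))) ^ n = 2 * V / c := by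
        rw [← Real.rpow_natCast, ← Real.rpow_mul (by positivity), one_div,
          inv_mul_cancel₀ hn0, Real.rpow_one]
      have hCG := hwid _ hw (hcovw _ hw (by
        rw [hwn, mul_div_cancel₀ _ hc.ne']
        linarith))
      refine hCG.mono ?_
      have h3 : (2 * V / c) ^ (1 / (n : ℝ)) = (2 / c) ^ (1 / (n : ℝ)) * V ^ (1 / (n : ℝ)) := by
        rw [← Real.mul_rpow (by positivity) hV0]
        congr 1
        ring
      rw [h3, mul_assoc]
      refine mul_le_mul_of_nonneg_left ?_ hcW.le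
      have h4 : 0 ≤ V ^ (1 / (n : ℝ)) := by positivity
      nlinarith

end Pool.Agent.Q144.LR
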