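import Pool.Agent.Q144.LR.Fin

/-!
# Spaces homeomorphic to products, with Lipschitz retractions onto the factors
-/

set_option autoImplicit false

open Set Topology MeasureTheory

noncomputable section

namespace Pool.Agent.Q144.LR

open Pool.Agent.Y489.GE

section Pi

variable {I : Type} [Fintype I] {F : I → Type} [∀ i, MetricSpace (F i)]

theorem gmap_pi {r : ℝ} {m : ∀ i, F i → F i → ℝ → F i} (hm : ∀ i, GMap (F i) r (m i)) :
    GMap (∀ i, F i) r (fun x y t i => m i (x i) (y i) t) where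
  cont := by
    refine continuousOn_pi.2 fun i => ?_
    have h1 : Continuous fun q : (∀ i, F i) × (∀ i, F i) × ℝ => ((q.1 i, q.2.1 i, q.2.2) :
        F i × F i × ℝ) := by fun_prop
    refine (hm i).cont.comp h1.continuousOn ?_
    intro q hq
    exact ⟨(dist_le_pi_dist q.1 q.2.1 i).trans hq.1, hq.2⟩
  zero := fun x y h => funext fun i => (hm i).zero _ _ ((dist_le_pi_dist x y i).trans h)
  one := fun x y h => funext fun i => (hm i).one _ _ ((dist_le_pi_dist x y i).trans h)
  dist_eq := by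
    intro x y h s hs t ht
    have h1 : ∀ i, dist (m i (x i) (y i) s) (m i (x i) (y i) t) = |s - t| * dist (x i) (y i) :=
      fun i => (hm i).dist_eq _ _ ((dist_le_pi_dist x y i).trans h) s hs t ht
    refine le_antisymm ?_ ?_
    · refine (dist_pi_le_iff (mul_nonneg (abs_nonneg _) dist_nonneg)).2 fun i => ?_
      rw [h1]
      exact mul_le_mul_of_nonneg_left (dist_le_pi_dist x y i) (abs_nonneg _)
    · rcases (abs_nonneg (s - t)).eq_or_lt with h0 | h0
      · rw [← h0, zero_mul]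
        exact dist_nonneg
      · rw [← le_div_iff₀' h0]
        refine (dist_pi_le_iff (div_nonneg dist_nonneg h0.le)).2 fun i => ?_
        rw [le_div_iff₀' h0, ← h1]
        exact dist_le_pi_dist (fun i => m i (x i) (y i) s) (fun i => m i (x i) (y i) t) i

theorem lc_pi {q : ℕ} {s₀ Lam : ℝ} (hLam : 0 ≤ Lam) (h : ∀ i, LC (F i) q s₀ Lam) :
    LC (∀ i, F i) q s₀ Lam := by
  intro p K _ _ hK f hf s hs hs0 hfs
  have h1 : ∀ i, ∃ H : K → ℝ → F i, Continuous (fun z : K × ℝ => H z.1 z.2) ∧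
      (∀ k, H k 0 = p i) ∧ (∀ k, H k 1 = f k i) ∧
      ∀ k, ∀ u ∈ Icc (0 : ℝ) 1, dist (p i) (H k u) ≤ Lam * s := fun i =>
    h i (p i) K hK (fun k => f k i) ((continuous_apply i).comp hf) s hs hs0
      fun k => (dist_le_pi_dist p (f k) i).trans (hfs k)
  choose H h2 h3 h4 h5 using h1
  refine ⟨fun k u i => H i k u, continuous_pi h2, fun k => funext fun i => h3 i k,
    fun k => funext fun i => h4 i k, fun k u hu => ?_⟩
  exact (dist_pi_le_iff (mul_nonneg hLam hs.le)).2 fun i => h5 i k u hu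

end Pi

theorem cov_homeo {X P : Type} [MetricSpace X] [MetricSpace P] (e : X ≃ₜ P) {b : ℝ} (hb : 0 ≤ b)
    (h : ∀ x y, dist (e x) (e y) ≤ b * dist x y) {w : ℝ} {n : ℕ} (hc : Cov X w n) :
    Cov P (b * w) n := by
  obtain ⟨N, U, h1, h2, h3, h4⟩ := hc
  refine ⟨N, fun i => e.symm ⁻¹' U i, fun i => (h1 i).preimage e.symm.continuous, ?_, ?_, ?_⟩
  · intro i x hx y hy
    have h5 := h (e.symm x) (e.symm y)
    rw [e.apply_symm_apply, e.apply_symm_apply] at h5
    exact h5.trans (mul_le_mul_of_nonneg_left (h2 i _ hx _ hy) hb)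
  · intro x
    obtain ⟨i, hi⟩ := h3 (e.symm x)
    exact ⟨i, hi⟩
  · intro x
    exact h4 (e.symm x)

theorem dom_homeo {X P : Type} [TopologicalSpace X] [TopologicalSpace P] (e : X ≃ₜ P) {k : ℕ}
    (h : Dom P k) : Dom X k := by
  obtain ⟨N, F, ν, Φ, h1, h2⟩ := h
  refine ⟨N, F, ν.comp ⟨e, e.continuous⟩, (ContinuousMap.mk e.symm e.symm.continuous).comp Φ, h1, ?_⟩
  have h3 := ContinuousMap.Homotopic.comp (ContinuousMap.Homotopic.refl
    (ContinuousMap.mk e.symm e.symm.continuous)) (ContinuousMap.Homotopic.comp h2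
      (ContinuousMap.Homotopic.refl (ContinuousMap.mk e e.continuous)))
  have h4 : (ContinuousMap.mk e.symm e.symm.continuous).comp ((ContinuousMap.id P).comp
      (ContinuousMap.mk e e.continuous)) = ContinuousMap.id X := by
    ext x
    simp
  rw [h4] at h3
  exact h3

/-- the constant -/
def cP (lam a b : ℝ) (n : ℕ) : ℝ := a * b * cW (lam * (a * b)) n

/-- width -/
theorem width {X I : Type} [MetricSpace X] [CompactSpace X] [Fintype I]
    {F G : I → Type} [∀ i, MetricSpace (F i)] [∀ i, CompactSpace (F i)] [∀ i, Group (G i)]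
    [∀ i, TopologicalSpace (G i)] [∀ i, IsTopologicalGroup (G i)] [∀ i, MulAction (G i) (F i)]
    [∀ i, ContinuousSMul (G i) (F i)] {n : ℕ} {r lam a b : ℝ} (hr : 0 < r) (hlam : 1 ≤ lam)
    (ha : 1 ≤ a) (hb : 1 ≤ b) (hX : GeodSpace X) (hUX : UniqGeod X r)
    (hF : ∀ i, GeodSpace (F i)) (hUF : ∀ i, UniqGeod (F i) r)
    (hG : ∀ (i : I) (g : G i) (x y : F i), dist (g • x) (g • y) ≤ lam * dist x y)
    (hs : ∀ (i : I) (p : F i), LocSec (F i) (G i) p) (e : X ≃ₜ (∀ i, F i))
    (ι : ∀ i, F i → X) (hret : ∀ i, Retr a b (ι i) (fun x => e x i)) (hdim : CovDim X n)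
    (hess : ¬ Dom X n) {w : ℝ} (hw : 0 < w) (hcw : Cov X w n) :
    ClosedGeod X (cP lam a b n * w) := by
  by_contra hno
  apply hess
  refine dom_homeo e ?_
  have he : ∀ x y, dist (e x) (e y) ≤ b * dist x y := fun x y =>
    (dist_pi_le_iff (mul_nonneg (by linarith) dist_nonneg)).2 fun i => (hret i).ret x y
  have hb0 : 0 < b := by linarith
  have hmF : ∀ i, ∃ m : F i → F i → ℝ → F i, GMap (F i) (r / 2) m := fun i =>
    Pool.Agent.Y467.GE.t_MG (F i) r hr (hF i) (hUF i)
  choose m hm using hmF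
  have hlab : 1 ≤ lam * (a * b) := by
    have : 1 ≤ a * b := by nlinarith
    nlinarith
  have hLC := lc_pi (F := F) (q := 2 * n + 1) (s₀ := cP lam a b n * w /
      (4 * a * sg (lam * (a * b)) (2 * n + 1))) (Lam := 4 * sg (lam * (a * b)) (2 * n + 1 + 1))
      (by have := sg_ge_one hlab (q := 2 * n + 1 + 1) (by omega); linarith) fun i =>
    lc_retract (hret i) ha hb hr hX hUX hr (hF i) (hUF i) hlam (hG i) (hs i) (2 * n + 1)
      (by omega) hno
  have h1 := sg_ge_one hlab (q := 2 * n + 1) (by omega)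
  have h2 := sg_ge_one hlab (q := 2 * n + 2) (by omega)
  refine h_NRV (∀ i, F i) (r / 2) _ (gmap_pi hm) (by linarith) n _ _ (b * w) ?_ hLC ?_
    (by positivity) (cov_homeo e hb0.le he hcw) ?_
  · change 1 ≤ 4 * sg (lam * (a * b)) (2 * n + 2)
    linarith
  · rw [covDim_iff] at hdim ⊢
    intro ε hε
    have h3 := cov_homeo e hb0.le he (hdim (ε / b) (by positivity))
    rwa [mul_div_cancel₀ _ hb0.ne'] at h3
  · rw [le_div_iff₀ (by positivity)]
    refine le_of_eq ?_
    simp only [cP, cW]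
    ring

/-- the volume theorem -/
theorem mainB (n : ℕ) (hn : 1 ≤ n) (lam a b : ℝ) (hlam : 1 ≤ lam) (ha : 1 ≤ a) (hb : 1 ≤ b) :
    ∃ C : ℝ, 0 < C ∧ ∀ (X I : Type) [MetricSpace X] [CompactSpace X] [MeasurableSpace X]
      [BorelSpace X] [Fintype I] (F G : I → Type) [∀ i, MetricSpace (F i)]
      [∀ i, CompactSpace (F i)] [∀ i, Group (G i)] [∀ i, TopologicalSpace (G i)]
      [∀ i, IsTopologicalGroup (G i)] [∀ i, MulAction (G i) (F i)]
      [∀ i, ContinuousSMul (G i) (F i)] (r : ℝ), 0 < r → GeodSpace X → UniqGeod X r →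
      (∀ i, GeodSpace (F i)) → (∀ i, UniqGeod (F i) r) →
      (∀ (i : I) (g : G i) (x y : F i), dist (g • x) (g • y) ≤ lam * dist x y) →
      (∀ (i : I) (p : F i), LocSec (F i) (G i) p) → ∀ (e : X ≃ₜ (∀ i, F i)) (ι : ∀ i, F i → X),
      (∀ i, Retr a b (ι i) (fun x => e x i)) → CovDim X n → ¬ Dom X n →
      (∀ w : ℝ, 0 < w → Cov X w n → ClosedGeod X (C * w)) ∧
      (μH[(n : ℝ)] (univ : Set X) ≠ ⊤ →
        ClosedGeod X (C * (μH[(n : ℝ)] (univ : Set X)).toReal ^ (1 / (n : ℝ)))) := by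
  obtain ⟨c, hc, hcov⟩ := h_WID n
  have hlab : 1 ≤ lam * (a * b) := by
    have : 1 ≤ a * b := by nlinarith
    nlinarith
  have hcP : 0 < cP lam a b n := by
    have := cW_pos hlab n
    unfold cP
    positivity
  have hn0 : (n : ℝ) ≠ 0 := by
    have : n ≠ 0 := by omega
    exact_mod_cast this
  have hκ : (0 : ℝ) < (2 / c) ^ (1 / (n : ℝ)) := by positivity
  refine ⟨cP lam a b n * (1 + (2 / c) ^ (1 / (n : ℝ))), by positivity, ?_⟩
  intro X I _ _ _ _ _ F G _ _ _ _ _ _ _ r hr hX hUX hF hUF hG hs e ι hret hdim hess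
  have hwid : ∀ w : ℝ, 0 < w → Cov X w n → ClosedGeod X (cP lam a b n * w) := fun w hw hcw =>
    width hr hlam ha hb hX hUX hF hUF hG hs e ι hret hdim hess hw hcw
  refine ⟨fun w hw hcw => (hwid w hw hcw).mono ?_, fun hfin => ?_⟩
  · rw [mul_assoc]
    refine mul_le_mul_of_nonneg_left ?_ hcP.le
    nlinarith
  · set V := (μH[(n : ℝ)] (univ : Set X)).toReal with hV
    have hV0 : 0 ≤ V := ENNReal.toReal_nonneg
    have hVe : μH[(n : ℝ)] (univ : Set X) = ENNReal.ofReal V := (ENNReal.ofReal_toReal hfin).symm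
    have hcovw : ∀ w : ℝ, 0 < w → V < c * w ^ n → Cov X w n := by
      intro w hw hVw
      refine hcov X w hw fun x => ?_
      calc μH[(n : ℝ)] (Metric.closedBall x w) ≤ μH[(n : ℝ)] (univ : Set X) :=
            measure_mono (subset_univ _)
        _ = ENNReal.ofReal V := hVe
        _ < ENNReal.ofReal (c * w ^ n) := (ENNReal.ofReal_lt_ofReal_iff (by positivity)).2 hVw
    rcases hV0.eq_or_lt with hV0 | hVpos
    · exfalso
      apply hess
      obtain ⟨m, hm⟩ := Pool.Agent.Y467.GE.t_MG X r hr hX hUX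
      have hr2 : 0 < r / 2 := by linarith
      have h1 := cE_ge_one (Lam := 1) le_rfl (2 * n + 1)
      have hw : 0 < r / 2 / (2 * cE 1 (2 * n + 1)) := by positivity
      refine h_NRV X (r / 2) m hm hr2 n (r / 2) 1 (r / 2 / (2 * cE 1 (2 * n + 1))) le_rfl
        (lc_trivial hm _) hdim hw (hcovw _ hw ?_) ?_
      · rw [← hV0]
        positivity
      · refine le_of_eq ?_
        field_simp
    · have hw : 0 < (2 * V / c) ^ (1 / (n : ℝ)) := by positivity
      have hwn : ((2 * V / c) ^ (1 / (n : ℝ))) ^ n = 2 * V / c := by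
        rw [← Real.rpow_natCast, ← Real.rpow_mul (by positivity), one_div,
          inv_mul_cancel₀ hn0, Real.rpow_one]
      have hCG := hwid _ hw (hcovw _ hw (by
        rw [hwn, mul_div_cancel₀ _ hc.ne']
        linarith))
      refine hCG.mono ?_
      have h3 : (2 * V / c) ^ (1 / (n : ℝ)) = (2 / c) ^ (1 / (n : ℝ)) * V ^ (1 / (n : ℝ)) := by
        rw [← Real.mul_rpow (by positivity) hV0]
        congr 1
        ring
      rw [h3, mul_assoc]
      refine mul_le_mul_of_nonneg_left ?_ hcP.le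
      have h4 : 0 ≤ V ^ (1 / (n : ℝ)) := by positivity
      nlinarith

end Pool.Agent.Q144.LR
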